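import Pool.Agent.Helper38.MR.Spec

set_option autoImplicit false

namespace Pool.Agent.Helper38.MR

/-- points in nontrivial fibres -/
def P_nt {m : ℕ} (c : Fin m → Fin m) : Finset (Fin m) :=
  Finset.univ.filter fun w => ∃ w', w' ≠ w ∧ c w' = c w

theorem P_nt_card {m : ℕ} (c : Fin m → Fin m) : (P_nt c).card ≤ 2 * rnk c := by
  classical
  set I := Finset.univ.image c with hI
  have h1 : m = ∑ b ∈ I, (Finset.univ.filter fun w => c w = b).card := by
    have := Finset.card_eq_sum_card_image c (Finset.univ : Finset (Fin m))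
    rw [Finset.card_univ, Fintype.card_fin] at this
    exact this
  have h2 : (P_nt c).card = ∑ b ∈ I, ((P_nt c).filter fun w => c w = b).card := by
    refine Finset.card_eq_sum_card_fiberwise fun w _ => ?_
    exact Finset.mem_coe.2 (Finset.mem_image_of_mem c (Finset.mem_univ w))
  have h3 : ∀ b ∈ I, ((P_nt c).filter fun w => c w = b).card + 2 ≤
      2 * (Finset.univ.filter fun w => c w = b).card ∧ 1 ≤ (Finset.univ.filter fun w => c w = b).card := by
    intro b hb
    obtain ⟨w, -, hw⟩ := Finset.mem_image.1 hb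
    have hpos : 1 ≤ (Finset.univ.filter fun w => c w = b).card :=
      Finset.card_pos.2 ⟨w, Finset.mem_filter.2 ⟨Finset.mem_univ _, hw⟩⟩
    refine ⟨?_, hpos⟩
    by_cases h : 2 ≤ (Finset.univ.filter fun w => c w = b).card
    · have hle : ((P_nt c).filter fun w => c w = b).card ≤ (Finset.univ.filter fun w => c w = b).card :=
        Finset.card_le_card fun x hx => by
          simp only [Finset.mem_filter, Finset.mem_univ, true_and] at hx ⊢
          exact hx.2
      omega
    · have h1' : (Finset.univ.filter fun w => c w = b).card = 1 := by omega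
      have : (P_nt c).filter (fun w => c w = b) = ∅ := by
        rw [Finset.eq_empty_iff_forall_notMem]
        intro x hx
        simp only [P_nt, Finset.mem_filter, Finset.mem_univ, true_and] at hx
        obtain ⟨⟨x', hne, hx'⟩, hxb⟩ := hx
        obtain ⟨z, hz⟩ := Finset.card_eq_one.1 h1'
        have e1 : x ∈ (Finset.univ.filter fun w => c w = b) := by simp [hxb]
        have e2 : x' ∈ (Finset.univ.filter fun w => c w = b) := by simp [hx', hxb]
        rw [hz, Finset.mem_singleton] at e1 e2
        exact hne (e2.trans e1.symm)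
      rw [this, h1']
      simp
  have h4 : (P_nt c).card + 2 * I.card ≤ 2 * m := by
    calc (P_nt c).card + 2 * I.card = ∑ b ∈ I, (((P_nt c).filter fun w => c w = b).card + 2) := by
          rw [Finset.sum_add_distrib, ← h2, Finset.sum_const, smul_eq_mul, mul_comm]
      _ ≤ ∑ b ∈ I, 2 * (Finset.univ.filter fun w => c w = b).card := Finset.sum_le_sum fun b hb => (h3 b hb).1
      _ = 2 * m := by rw [← Finset.mul_sum, ← h1]
  show (P_nt c).card ≤ 2 * (m - I.card)
  omega

theorem P_step {m : ℕ} {F : Graph m → ℝ} (hF : Antitone F) {K A : Finset (Fin m)} {c : Fin m → Fin m}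
    (hc1 : clq A ≤ mpt c) (hc2 : F (clq A) ≤ F (mpt c)) (hAK : A ⊆ K)
    (hlt : F (clq K) < F (clq A)) : ∃ w ∈ P_nt c, w ∉ A ∧ w ∈ K := by
  have hn : ¬ clq K ≤ mpt c := by
    intro h
    have := hF h
    linarith
  rw [Pi.le_def, not_forall] at hn
  obtain ⟨e, he⟩ := hn
  have h1 : clq K e = true := by
    by_contra h
    have : clq K e = false := by simpa using h
    exact he (by rw [this]; exact Bool.false_le _)
  have h2 : mpt c e = false := by
    by_contra h
    have : mpt c e = true := by simpa using h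
    exact he (by rw [this]; exact Bool.le_true _)
  simp only [clq, decide_eq_true_eq] at h1
  simp only [mpt, decide_eq_false_iff_not, not_not] at h2
  have hne : e.1.1 ≠ e.1.2 := (ne_of_lt e.2)
  have h3 : ¬ (e.1.1 ∈ A ∧ e.1.2 ∈ A) := by
    intro h
    have h4 := hc1 e
    have h5 : clq A e = true := by simp only [clq, decide_eq_true_eq]; exact h
    have h6 : mpt c e = false := by simp only [mpt, decide_eq_false_iff_not, not_not]; exact h2
    rw [h5, h6] at h4
    have h7 : (true : Bool) ≤ false := h4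
    exact absurd h7 (by decide)
  by_cases hA : e.1.1 ∈ A
  · refine ⟨e.1.2, ?_, fun h => h3 ⟨hA, h⟩, h1.2⟩
    simp only [P_nt, Finset.mem_filter, Finset.mem_univ, true_and]
    exact ⟨e.1.1, hne, h2⟩
  · refine ⟨e.1.1, ?_, hA, h1.1⟩
    simp only [P_nt, Finset.mem_filter, Finset.mem_univ, true_and]
    exact ⟨e.1.2, hne.symm, h2.symm⟩

theorem P : specP := by
  classical
  intro m r s F₁ F₂ hr h1 h2 hc1 hc2
  choose c₁ hr₁ hle₁ hF₁ using fun A : Finset (Fin m) => hc1 (clq A)
  choose c₂ hr₂ hle₂ hF₂ using fun A : Finset (Fin m) => hc2 (clq A)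
  let U : Finset (Fin m) → Finset (Fin m) := fun A => P_nt (c₁ A) ∪ P_nt (c₂ A)
  have hU : ∀ A, (U A).card ≤ 4 * r := by
    intro A
    have e1 := P_nt_card (c₁ A)
    have e2 := P_nt_card (c₂ A)
    have := Finset.card_union_le (P_nt (c₁ A)) (P_nt (c₂ A))
    have e3 := hr₁ A
    have e4 := hr₂ A
    show (P_nt (c₁ A) ∪ P_nt (c₂ A)).card ≤ 4 * r
    omega
  let E : ℕ → Finset (Finset (Fin m)) := fun j =>
    Nat.rec {∅} (fun _ Ej => Ej.biUnion fun A => (U A \ A).image fun v => insert v A) j
  have hE0 : E 0 = {∅} := rfl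
  have hES : ∀ j, E (j + 1) = (E j).biUnion fun A => (U A \ A).image fun v => insert v A := fun _ => rfl
  have hcard : ∀ j, (E j).card ≤ (4 * r) ^ j := by
    intro j
    induction j with
    | zero => simp [hE0]
    | succ j ih =>
      rw [hES, pow_succ]
      refine (Finset.card_biUnion_le_card_mul _ _ (4 * r) fun A _ => ?_).trans
        (Nat.mul_le_mul_right _ ih)
      exact Finset.card_image_le.trans ((Finset.card_le_card Finset.sdiff_subset).trans (hU A))
  have hmem : ∀ j, ∀ A ∈ E j, A.card = j := by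
    intro j
    induction j with
    | zero => intro A hA; rw [hE0, Finset.mem_singleton] at hA; simp [hA]
    | succ j ih =>
      intro A hA
      rw [hES, Finset.mem_biUnion] at hA
      obtain ⟨A', hA', hA⟩ := hA
      rw [Finset.mem_image] at hA
      obtain ⟨v, hv, rfl⟩ := hA
      rw [Finset.card_insert_of_notMem (Finset.mem_sdiff.1 hv).2, ih A' hA']
  refine ⟨E s, hcard s, hmem s, fun K hK => ?_⟩
  have hall : ∀ j, j ≤ s → ∃ A ∈ E j, A ⊆ K := by
    intro j
    induction j with
    | zero => intro _; exact ⟨∅, by simp [hE0], Finset.empty_subset _⟩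
    | succ j ih =>
      intro hj
      obtain ⟨A, hA, hAK⟩ := ih (by omega)
      have hAs : A.card < s := by rw [hmem j A hA]; omega
      have : ∃ w ∈ U A, w ∉ A ∧ w ∈ K := by
        rcases hK A hAK hAs with h | h
        · obtain ⟨w, hw, hw'⟩ := P_step h1 (hle₁ A) (hF₁ A) hAK h
          exact ⟨w, Finset.mem_union_left _ hw, hw'⟩
        · obtain ⟨w, hw, hw'⟩ := P_step h2 (hle₂ A) (hF₂ A) hAK h
          exact ⟨w, Finset.mem_union_right _ hw, hw'⟩
      obtain ⟨w, hwU, hwA, hwK⟩ := this
      refine ⟨insert w A, ?_, Finset.insert_subset hwK hAK⟩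
      rw [hES, Finset.mem_biUnion]
      exact ⟨A, hA, Finset.mem_image.2 ⟨w, Finset.mem_sdiff.2 ⟨hwU, hwA⟩, rfl⟩⟩
  exact hall s le_rfl

end Pool.Agent.Helper38.MR
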